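import Pool.Agent.helper5.SYM.SpecA

set_option autoImplicit false

namespace Pool.Agent.SYM
open Finset CT Polynomial

section conj
variable {D : Type} [DecidableEq D]

omit [DecidableEq D] in
/-- Conjugation by a permutation. -/
def DS_cj (χ : Equiv.Perm D) (e : D → D) : D → D := fun d => χ (e (χ.symm d))

theorem DS_cj_join (χ : Equiv.Perm D) (e : D → D) (x y : D) :
    join (DS_cj χ e) (χ x) (χ y) = DS_cj χ (join e x y) := by
  funext d
  obtain ⟨d', rfl⟩ := χ.surjective d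
  unfold DS_cj join
  simp only [Equiv.symm_apply_apply, EmbeddingLike.apply_eq_iff_eq]
  split_ifs <;> rfl

theorem DS_cj_lp (χ : Equiv.Perm D) (e : D → D) (x y : D) :
    lp (DS_cj χ e) (χ x) (χ y) = lp e x y := by
  unfold DS_cj CT.lp
  simp only [Equiv.symm_apply_apply, EmbeddingLike.apply_eq_iff_eq]

omit [DecidableEq D] in
theorem DS_cj_fix (χ : Equiv.Perm D) (f : D → D) (hf : ∀ d, f (f d) = d)
    (h : ∀ d, χ d ≠ d → f d = d) : DS_cj χ f = f := by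
  funext d
  obtain ⟨d', rfl⟩ := χ.surjective d
  unfold DS_cj
  rw [Equiv.symm_apply_apply]
  by_cases hd : χ d' = d'
  · rw [hd]
    by_contra hc
    have h1 := h _ hc
    rw [hf] at h1
    apply hc
    rw [← h1, hd]
  · have h1 := h d' hd
    rw [h1]
    have h2 : χ (χ d') ≠ χ d' := fun h3 => hd (χ.injective h3)
    exact (h _ h2).symm

theorem DS_fixed (e : D → D) (x y d : D) (h : e d = d) : join e x y d = d := by
  unfold join
  by_cases h1 : d = x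
  · simp [h1]
  by_cases h2 : d = y
  · simp [h2]
  simp [h, h1, h2]

theorem DS_ne (e : D → D) (he : ∀ d, e (e d) = d) {x y d : D} (hxy : x ≠ y)
    (hd : e d ≠ d) (h1 : d ≠ x) (h2 : d ≠ y) : join e x y d ≠ d := by
  unfold join
  rw [if_neg (by tauto)]
  by_cases h3 : e d = x
  · rw [if_pos h3]
    intro h4
    apply hxy
    rw [← h3, ← h4, he]
  rw [if_neg h3]
  by_cases h4 : e d = y
  · rw [if_pos h4]
    intro h5
    apply hxy
    rw [← h4, ← h5, he]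
  rw [if_neg h4]
  exact hd

end conj

section main
variable {W : Type} [DecidableEq W]

/-- The same pair. -/
def DS_A (x y i j : Fin 4) : Prop := (x = i ∧ y = j) ∨ (x = j ∧ y = i)

instance (x y i j : Fin 4) : Decidable (DS_A x y i j) := by
  unfold DS_A
  infer_instance

/-- All different. -/
def DS_d4 (i j k l : Fin 4) : Prop := i ≠ j ∧ i ≠ k ∧ i ≠ l ∧ j ≠ k ∧ j ≠ l ∧ k ≠ l

instance (i j k l : Fin 4) : Decidable (DS_d4 i j k l) := by
  unfold DS_d4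
  infer_instance

theorem DS_fin0 : ∀ (t : Fin 3) (i j k l : Fin 4), DS_d4 i j k l → pa t i = j →
    (DS_A (pr t).1 (pr t).2.1 i j ∧ DS_A (pr t).2.2.1 (pr t).2.2.2 k l) ∨
    (DS_A (pr t).1 (pr t).2.1 k l ∧ DS_A (pr t).2.2.1 (pr t).2.2.2 i j) := by
  decide

theorem DS_fin (t : Fin 3) (i j k l : Fin 4)
    (h : i ≠ j ∧ i ≠ k ∧ i ≠ l ∧ j ≠ k ∧ j ≠ l ∧ k ≠ l) (ht : pa t i = j) :
    ((((pr t).1 = i ∧ (pr t).2.1 = j) ∨ ((pr t).1 = j ∧ (pr t).2.1 = i)) ∧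
      (((pr t).2.2.1 = k ∧ (pr t).2.2.2 = l) ∨ ((pr t).2.2.1 = l ∧ (pr t).2.2.2 = k))) ∨
    ((((pr t).1 = k ∧ (pr t).2.1 = l) ∨ ((pr t).1 = l ∧ (pr t).2.1 = k)) ∧
      (((pr t).2.2.1 = i ∧ (pr t).2.2.2 = j) ∨ ((pr t).2.2.1 = j ∧ (pr t).2.2.2 = i))) :=
  DS_fin0 t i j k l h ht

theorem DS_fin3 (i j k l : Fin 4)
    (h : i ≠ j ∧ i ≠ k ∧ i ≠ l ∧ j ≠ k ∧ j ≠ l ∧ k ≠ l) :
    ∃ t0 t1 t2 : Fin 3, pa t0 i = j ∧ pa t1 i = k ∧ pa t2 i = l ∧ t0 ≠ t1 ∧ t0 ≠ t2 ∧ t1 ≠ t2 ∧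
      (univ : Finset (Fin 3)) = {t0, t1, t2} := by
  have h1 : ∀ i j : Fin 4, i ≠ j → ∃ t : Fin 3, pa t i = j := by decide
  have h2 : ∀ t0 t1 t2 : Fin 3, t0 ≠ t1 → t0 ≠ t2 → t1 ≠ t2 →
      (univ : Finset (Fin 3)) = {t0, t1, t2} := by decide
  obtain ⟨hij, hik, hil, hjk, hjl, hkl⟩ := h
  obtain ⟨t0, e0⟩ := h1 i j hij
  obtain ⟨t1, e1⟩ := h1 i k hik
  obtain ⟨t2, e2⟩ := h1 i l hil
  have n1 : t0 ≠ t1 := by
    rintro rfl
    exact hjk (e0.symm.trans e1)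
  have n2 : t0 ≠ t2 := by
    rintro rfl
    exact hjl (e0.symm.trans e2)
  have n3 : t1 ≠ t2 := by
    rintro rfl
    exact hkl (e1.symm.trans e2)
  exact ⟨t0, t1, t2, e0, e1, e2, n1, n2, n3, h2 _ _ _ n1 n2 n3⟩

theorem DS_sm (e : W × Fin 4 → W × Fin 4) (he : ∀ d, e (e d) = d) (u : W)
    (hu : ∀ k, e (u, k) ≠ (u, k)) (t : Fin 3) (i j k l : Fin 4)
    (h : i ≠ j ∧ i ≠ k ∧ i ≠ l ∧ j ≠ k ∧ j ≠ l ∧ k ≠ l) (ht : pa t i = j) :
    sm e u t = join (join e (u, i) (u, j)) (u, k) (u, l) ∧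
      ls e u t = lp e (u, i) (u, j) + lp (join e (u, i) (u, j)) (u, k) (u, l) := by
  have hne : ∀ {a b : Fin 4}, a ≠ b → ((u, a) : W × Fin 4) ≠ (u, b) := by
    intro a b hab hc
    exact hab (Prod.mk.inj hc).2
  obtain ⟨hij, hik, hil, hjk, hjl, hkl⟩ := h
  have i1 : ∀ d, join e (u, i) (u, j) (join e (u, i) (u, j) d) = d :=
    join_invol e he (hne hij) (hu i) (hu j)
  have i2 : ∀ d, join e (u, k) (u, l) (join e (u, k) (u, l) d) = d :=
    join_invol e he (hne hkl) (hu k) (hu l)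
  have c1 := join_comm e he (hne hij) (hne hik) (hne hil) (hne hjk) (hne hjl) (hne hkl)
    (hu i) (hu j) (hu k) (hu l)
  have c2 := lp_comm e he (hne hij) (hne hik) (hne hil) (hne hjk) (hne hjl) (hne hkl)
    (hu i) (hu j) (hu k) (hu l)
  unfold sm ls
  rcases DS_fin t i j k l ⟨hij, hik, hil, hjk, hjl, hkl⟩ ht with
    ⟨⟨h1, h2⟩ | ⟨h1, h2⟩, ⟨h3, h4⟩ | ⟨h3, h4⟩⟩ | ⟨⟨h1, h2⟩ | ⟨h1, h2⟩, ⟨h3, h4⟩ | ⟨h3, h4⟩⟩
  · rw [h1, h2, h3, h4]
    exact ⟨rfl, rfl⟩
  · rw [h1, h2, h3, h4, join_symm _ i1 (u, l) (u, k), lp_symm _ i1 (u, l) (u, k)]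
    exact ⟨rfl, rfl⟩
  · rw [h1, h2, h3, h4, join_symm e he (u, j) (u, i), lp_symm e he (u, j) (u, i)]
    exact ⟨rfl, rfl⟩
  · rw [h1, h2, h3, h4, join_symm e he (u, j) (u, i), lp_symm e he (u, j) (u, i),
      join_symm _ i1 (u, l) (u, k), lp_symm _ i1 (u, l) (u, k)]
    exact ⟨rfl, rfl⟩
  · rw [h1, h2, h3, h4, c1, c2]
    exact ⟨rfl, rfl⟩
  · rw [h1, h2, h3, h4, join_symm _ i2 (u, j) (u, i), lp_symm _ i2 (u, j) (u, i), c1, c2]
    exact ⟨rfl, rfl⟩
  · rw [h1, h2, h3, h4, join_symm e he (u, l) (u, k), lp_symm e he (u, l) (u, k), c1, c2]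
    exact ⟨rfl, rfl⟩
  · rw [h1, h2, h3, h4, join_symm e he (u, l) (u, k), lp_symm e he (u, l) (u, k),
      join_symm _ i2 (u, j) (u, i), lp_symm _ i2 (u, j) (u, i), c1, c2]
    exact ⟨rfl, rfl⟩

/-- One term of the sum over the three pairings. -/
def DS_T (R : (W × Fin 4 → W × Fin 4) → ZMod 2) (L : List W)
    (e : W × Fin 4 → W × Fin 4) (a b c d : W × Fin 4) : ZMod 2 :=
  if lp e a b + lp (join e a b) c d = 0 then NL R L (join (join e a b) c d) else 0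

theorem DS_T_cj (R : (W × Fin 4 → W × Fin 4) → ZMod 2) (L : List W)
    (e : W × Fin 4 → W × Fin 4) (χ : Equiv.Perm (W × Fin 4)) (a b c d : W × Fin 4)
    (h : DS_cj χ (join (join e a b) c d) = join (join e a b) c d) :
    DS_T R L (DS_cj χ e) (χ a) (χ b) (χ c) (χ d) = DS_T R L e a b c d := by
  unfold DS_T
  rw [DS_cj_join, DS_cj_join, DS_cj_lp, DS_cj_lp, h]

theorem DS_sum (R : (W × Fin 4 → W × Fin 4) → ZMod 2) (L : List W)
    (e : W × Fin 4 → W × Fin 4) (he : ∀ d, e (e d) = d) (u : W)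
    (hu : ∀ k, e (u, k) ≠ (u, k)) (i j k l : Fin 4)
    (h : i ≠ j ∧ i ≠ k ∧ i ≠ l ∧ j ≠ k ∧ j ≠ l ∧ k ≠ l) :
    NL R (u :: L) e = DS_T R L e (u, i) (u, j) (u, k) (u, l) +
      DS_T R L e (u, i) (u, k) (u, j) (u, l) + DS_T R L e (u, i) (u, l) (u, j) (u, k) := by
  obtain ⟨t0, t1, t2, h0, h1, h2, h01, h02, h12, hu3⟩ := DS_fin3 i j k l h
  obtain ⟨hij, hik, hil, hjk, hjl, hkl⟩ := h
  have a0 := DS_sm e he u hu t0 i j k l ⟨hij, hik, hil, hjk, hjl, hkl⟩ h0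
  have a1 := DS_sm e he u hu t1 i k j l ⟨hik, hij, hil, hjk.symm, hkl, hjl⟩ h1
  have a2 := DS_sm e he u hu t2 i l j k ⟨hil, hij, hik, hjl.symm, hkl.symm, hjk⟩ h2
  have hs : NL R (u :: L) e = ∑ t : Fin 3, if ls e u t = 0 then NL R L (sm e u t) else 0 := rfl
  rw [hs, hu3, Finset.sum_insert (by simp [h01, h02]), Finset.sum_pair h12, a0.1, a0.2, a1.1, a1.2,
    a2.1, a2.2, ← add_assoc]
  rfl

/-- The four darts of a vertex are fixed after the smoothing, and the result is an involution. -/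
theorem DS_four (e : W × Fin 4 → W × Fin 4) (he : ∀ d, e (e d) = d) (u : W)
    (hu : ∀ k, e (u, k) ≠ (u, k)) (i j k l : Fin 4)
    (h : i ≠ j ∧ i ≠ k ∧ i ≠ l ∧ j ≠ k ∧ j ≠ l ∧ k ≠ l) :
    (∀ d, join (join e (u, i) (u, j)) (u, k) (u, l)
      (join (join e (u, i) (u, j)) (u, k) (u, l) d) = d) ∧
    (join (join e (u, i) (u, j)) (u, k) (u, l) (u, i) = (u, i)) ∧
    (join (join e (u, i) (u, j)) (u, k) (u, l) (u, j) = (u, j)) ∧
    (join (join e (u, i) (u, j)) (u, k) (u, l) (u, k) = (u, k)) ∧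
    (join (join e (u, i) (u, j)) (u, k) (u, l) (u, l) = (u, l)) ∧
    (∀ d : W × Fin 4, d.1 ≠ u → e d ≠ d → join (join e (u, i) (u, j)) (u, k) (u, l) d ≠ d) := by
  have hne : ∀ {a b : Fin 4}, a ≠ b → ((u, a) : W × Fin 4) ≠ (u, b) := by
    intro a b hab hc
    exact hab (Prod.mk.inj hc).2
  obtain ⟨hij, hik, hil, hjk, hjl, hkl⟩ := h
  have i1 : ∀ d, join e (u, i) (u, j) (join e (u, i) (u, j) d) = d :=
    join_invol e he (hne hij) (hu i) (hu j)
  have n1 : ∀ d, e d ≠ d → d ≠ (u, i) → d ≠ (u, j) → join e (u, i) (u, j) d ≠ d := fun d h1 h2 h3 =>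
    DS_ne e he (hne hij) h1 h2 h3
  have k1 := n1 (u, k) (hu k) (hne hik.symm) (hne hjk.symm)
  have l1 := n1 (u, l) (hu l) (hne hil.symm) (hne hjl.symm)
  refine ⟨join_invol _ i1 (hne hkl) k1 l1, DS_fixed _ _ _ _ (join_left _ _ _),
    DS_fixed _ _ _ _ (join_right _ _ _), join_left _ _ _, join_right _ _ _, ?_⟩
  intro d hd hed
  have hn : ∀ a : Fin 4, d ≠ (u, a) := by
    intro a hc
    exact hd (by rw [hc])
  exact DS_ne _ i1 (hne hkl) (n1 d hed (hn i) (hn j)) (hn k) (hn l)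

end main

theorem DS (hIN : IN_stmt) : DS_stmt := by
  intro W _ R z u L e i i' j j' hzu he hz hu hii h1 h2
  have hne : ∀ {w : W} {a b : Fin 4}, a ≠ b → ((w, a) : W × Fin 4) ≠ (w, b) := by
    intro w a b hab hc
    exact hab (Prod.mk.inj hc).2
  have hzu' : ∀ (a b : Fin 4), ((z, a) : W × Fin 4) ≠ (u, b) := by
    intro a b hc
    exact hzu (Prod.mk.inj hc).1
  have huz' : ∀ (a b : Fin 4), ((u, a) : W × Fin 4) ≠ (z, b) := fun a b => (hzu' b a).symm
  have hjj : j ≠ j' := by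
    intro hc
    subst hc
    have h3 : ((z, i) : W × Fin 4) = (z, i') := by
      rw [← he (z, i), h1, ← h2, he]
    exact hii (Prod.mk.inj h3).2
  have hex : ∀ x y : Fin 4, x ≠ y →
      ∃ a b : Fin 4, x ≠ y ∧ x ≠ a ∧ x ≠ b ∧ y ≠ a ∧ y ≠ b ∧ a ≠ b := by decide
  obtain ⟨a, b, -, hia, hib, hi'a, hi'b, hab⟩ := hex i i' hii
  obtain ⟨k, l, -, hjk, hjl, hj'k, hj'l, hkl⟩ := hex j j' hjj
  have h1' : e (u, j) = (z, i) := by rw [← h1, he]
  have h2' : e (u, j') = (z, i') := by rw [← h2, he]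
  rw [DS_sum R (u :: L) e he z hz i i' a b ⟨hii, hia, hib, hi'a, hi'b, hab⟩]
  -- the first term
  have t0 : DS_T R (u :: L) e (z, i) (z, i') (z, a) (z, b) = 0 := by
    obtain ⟨g1, g2, g3, g4, g5, g6⟩ := DS_four e he z hz i i' a b ⟨hii, hia, hib, hi'a, hi'b, hab⟩
    unfold DS_T
    split_ifs with h3
    · refine hIN W R u L _ j j' g1 (fun k => g6 (u, k) (Ne.symm hzu) (hu k)) hjj ?_
      have h4 : join e (z, i) (z, i') (u, j) = (u, j') := by
        unfold join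
        rw [if_neg (by simp [Prod.ext_iff, Ne.symm hzu]), if_pos h1', h2]
      unfold join
      unfold join at h4
      rw [if_neg (by simp [Prod.ext_iff, Ne.symm hzu]), h4, if_neg (huz' _ _), if_neg (huz' _ _)]
    · rfl
  rw [t0, zero_add]
  -- the other two terms
  obtain ⟨p1, p2, p3, p4, p5, p6⟩ := DS_four e he z hz i a i' b
    ⟨hia, hii, hib, Ne.symm hi'a, hab, hi'b⟩
  have l1 : lp e (z, i) (z, a) + lp (join e (z, i) (z, a)) (z, i') (z, b) = 0 := by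
    have q1 : lp e (z, i) (z, a) = 0 := by
      unfold CT.lp
      rw [h1, if_neg (huz' _ _)]
    have q2 : lp (join e (z, i) (z, a)) (z, i') (z, b) = 0 := by
      have q3 : join e (z, i) (z, a) (z, i') = (u, j') := by
        unfold join
        rw [if_neg (by
          rintro (hc | hc)
          · exact hne (Ne.symm hii) hc
          · exact hne hi'a hc), h2, if_neg (huz' _ _), if_neg (huz' _ _)]
      unfold CT.lp
      rw [q3, if_neg (huz' _ _)]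
    rw [q1, q2]
  have l2 : lp e (z, i) (z, b) + lp (join e (z, i) (z, b)) (z, i') (z, a) = 0 := by
    have q1 : lp e (z, i) (z, b) = 0 := by
      unfold CT.lp
      rw [h1, if_neg (huz' _ _)]
    have q2 : lp (join e (z, i) (z, b)) (z, i') (z, a) = 0 := by
      have q3 : join e (z, i) (z, b) (z, i') = (u, j') := by
        unfold join
        rw [if_neg (by
          rintro (hc | hc)
          · exact hne (Ne.symm hii) hc
          · exact hne hi'b hc), h2, if_neg (huz' _ _), if_neg (huz' _ _)]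
      unfold CT.lp
      rw [q3, if_neg (huz' _ _)]
    rw [q1, q2]
  have T1 : DS_T R (u :: L) e (z, i) (z, a) (z, i') (z, b) =
      NL R (u :: L) (join (join e (z, i) (z, a)) (z, i') (z, b)) := by
    unfold DS_T
    rw [if_pos l1]
  have T2 : DS_T R (u :: L) e (z, i) (z, b) (z, i') (z, a) =
      NL R (u :: L) (join (join e (z, i) (z, b)) (z, i') (z, a)) := by
    unfold DS_T
    rw [if_pos l2]
  rw [T1, T2]
  -- the permutation
  obtain ⟨χ, hχ⟩ : ∃ χ : Equiv.Perm (W × Fin 4),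
      χ = (Equiv.swap (z, i) (z, i')) * (Equiv.swap (u, j) (u, j')) := ⟨_, rfl⟩
  have x1 : χ (z, i) = (z, i') := by
    rw [hχ, Equiv.Perm.mul_apply, Equiv.swap_apply_of_ne_of_ne (hzu' _ _) (hzu' _ _),
      Equiv.swap_apply_left]
  have x2 : χ (z, i') = (z, i) := by
    rw [hχ, Equiv.Perm.mul_apply, Equiv.swap_apply_of_ne_of_ne (hzu' _ _) (hzu' _ _),
      Equiv.swap_apply_right]
  have x3 : χ (u, j) = (u, j') := by
    rw [hχ, Equiv.Perm.mul_apply, Equiv.swap_apply_left,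
      Equiv.swap_apply_of_ne_of_ne (huz' _ _) (huz' _ _)]
  have x4 : χ (u, j') = (u, j) := by
    rw [hχ, Equiv.Perm.mul_apply, Equiv.swap_apply_right,
      Equiv.swap_apply_of_ne_of_ne (huz' _ _) (huz' _ _)]
  have x5 : ∀ d, d ≠ (z, i) → d ≠ (z, i') → d ≠ (u, j) → d ≠ (u, j') → χ d = d := by
    intro d d1 d2 d3 d4
    rw [hχ, Equiv.Perm.mul_apply, Equiv.swap_apply_of_ne_of_ne d3 d4,
      Equiv.swap_apply_of_ne_of_ne d1 d2]
  have hce : DS_cj χ e = e := by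
    funext d
    obtain ⟨d', rfl⟩ := χ.surjective d
    unfold DS_cj
    rw [Equiv.symm_apply_apply]
    by_cases d1 : d' = (z, i)
    · rw [d1, h1, x1, x3, h2]
    by_cases d2 : d' = (z, i')
    · rw [d2, h2, x2, x4, h1]
    by_cases d3 : d' = (u, j)
    · rw [d3, h1', x1, x3, h2']
    by_cases d4 : d' = (u, j')
    · rw [d4, h2', x2, x4, h1']
    rw [x5 d' d1 d2 d3 d4]
    apply x5
    · intro hc
      exact d3 (by rw [← he d', hc, h1])
    · intro hc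
      exact d4 (by rw [← he d', hc, h2])
    · intro hc
      exact d1 (by rw [← he d', hc, h1'])
    · intro hc
      exact d2 (by rw [← he d', hc, h2'])
  have xa : χ (z, a) = (z, a) := x5 _ (hne (Ne.symm hia)) (hne (Ne.symm hi'a)) (hzu' _ _) (hzu' _ _)
  have xb : χ (z, b) = (z, b) := x5 _ (hne (Ne.symm hib)) (hne (Ne.symm hi'b)) (hzu' _ _) (hzu' _ _)
  have xk : χ (u, k) = (u, k) := x5 _ (huz' _ _) (huz' _ _) (hne (Ne.symm hjk)) (hne (Ne.symm hj'k))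
  have xl : χ (u, l) = (u, l) := x5 _ (huz' _ _) (huz' _ _) (hne (Ne.symm hjl)) (hne (Ne.symm hj'l))
  have he2 : join (join e (z, i) (z, b)) (z, i') (z, a) =
      DS_cj χ (join (join e (z, i) (z, a)) (z, i') (z, b)) := by
    rw [← DS_cj_join, ← DS_cj_join, hce, x1, x2, xa, xb]
    exact join_comm e he (hne hib) (hne hii) (hne hia) (hne (Ne.symm hi'b)) (hne (Ne.symm hab))
      (hne hi'a) (hz _) (hz _) (hz _) (hz _)
  rw [he2]
  generalize hE : join (join e (z, i) (z, a)) (z, i') (z, b) = E at p1 p2 p3 p4 p5 p6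
  have hEu : ∀ k, E (u, k) ≠ (u, k) := fun k => p6 (u, k) (Ne.symm hzu) (hu k)
  have hE2 : ∀ d, DS_cj χ E (DS_cj χ E d) = d := by
    intro d
    unfold DS_cj
    rw [Equiv.symm_apply_apply, p1, Equiv.apply_symm_apply]
  have hE2u : ∀ k, DS_cj χ E (u, k) ≠ (u, k) := by
    intro m hc
    unfold DS_cj at hc
    have h3 : E (χ.symm (u, m)) = χ.symm (u, m) := by
      rw [Equiv.eq_symm_apply]
      exact hc
    have h4 : ∃ m', χ.symm (u, m) = (u, m') := by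
      by_cases hm : m = j
      · exact ⟨j', by rw [Equiv.symm_apply_eq, hm, x4]⟩
      by_cases hm' : m = j'
      · exact ⟨j, by rw [Equiv.symm_apply_eq, hm', x3]⟩
      · exact ⟨m, by rw [Equiv.symm_apply_eq, x5 _ (huz' _ _) (huz' _ _) (hne hm) (hne hm')]⟩
    obtain ⟨m', h4⟩ := h4
    rw [h4] at h3
    exact hEu m' h3
  have key : NL R (u :: L) (DS_cj χ E) = NL R (u :: L) E := by
    rw [DS_sum R L E p1 u hEu j j' k l ⟨hjj, hjk, hjl, hj'k, hj'l, hkl⟩,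
      DS_sum R L (DS_cj χ E) hE2 u hE2u j' j k l ⟨Ne.symm hjj, hj'k, hj'l, hjk, hjl, hkl⟩]
    have hfix : ∀ x y v w : Fin 4, (x ≠ y ∧ x ≠ v ∧ x ≠ w ∧ y ≠ v ∧ y ≠ w ∧ v ≠ w) →
        DS_cj χ (join (join E (u, x) (u, y)) (u, v) (u, w)) =
          join (join E (u, x) (u, y)) (u, v) (u, w) := by
      intro x y v w hxy
      obtain ⟨g1, g2, g3, g4, g5, g6⟩ := DS_four E p1 u hEu x y v w hxy
      have hall : ∀ m : Fin 4, join (join E (u, x) (u, y)) (u, v) (u, w) (u, m) = (u, m) := by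
        have hc : ∀ x y v w : Fin 4, DS_d4 x y v w →
            ∀ m, m = x ∨ m = y ∨ m = v ∨ m = w := by decide
        intro m
        rcases hc x y v w hxy m with rfl | rfl | rfl | rfl
        · exact g2
        · exact g3
        · exact g4
        · exact g5
      apply DS_cj_fix _ _ g1
      intro d hd
      by_cases d1 : d = (z, i)
      · rw [d1]
        exact DS_fixed _ _ _ _ (DS_fixed _ _ _ _ p2)
      by_cases d2 : d = (z, i')
      · rw [d2]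
        exact DS_fixed _ _ _ _ (DS_fixed _ _ _ _ p4)
      by_cases d3 : d = (u, j)
      · rw [d3]
        exact hall j
      by_cases d4 : d = (u, j')
      · rw [d4]
        exact hall j'
      · exact absurd (x5 d d1 d2 d3 d4) hd
    have c0 := DS_T_cj R L E χ (u, j) (u, j') (u, k) (u, l)
      (hfix _ _ _ _ ⟨hjj, hjk, hjl, hj'k, hj'l, hkl⟩)
    have c1 := DS_T_cj R L E χ (u, j) (u, k) (u, j') (u, l)
      (hfix _ _ _ _ ⟨hjk, hjj, hjl, Ne.symm hj'k, hkl, hj'l⟩)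
    have c2 := DS_T_cj R L E χ (u, j) (u, l) (u, j') (u, k)
      (hfix _ _ _ _ ⟨hjl, hjj, hjk, Ne.symm hj'l, Ne.symm hkl, hj'k⟩)
    rw [x3, x4, xk, xl] at c0 c1 c2
    rw [c0, c1, c2]
  rw [key]
  exact CharTwo.add_self_eq_zero _

end Pool.Agent.SYM
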