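import Pool.Agent.helper5.SYM.SpecB

set_option autoImplicit false

namespace Pool.Agent.SYM
open Finset CT Polynomial

theorem FRE_sd_pow {V : Type} {G : SimpleGraph V} (p : G ≃g G) (d : G.Dart) (h : sd p d = d)
    (n : ℕ) : sd (p ^ n) d = d := by
  have h1 : p d.fst = d.fst := congrArg (fun x : G.Dart => x.fst) h
  have h2 : p d.snd = d.snd := congrArg (fun x : G.Dart => x.snd) h
  have h3 : ∀ x : V, p x = x → (p ^ n) x = x := by
    intro x hx
    induction n with
    | zero => rfl
    | succ n ih =>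
      rw [pow_succ, RelIso.mul_apply, hx, ih]
  apply SimpleGraph.Dart.ext
  exact Prod.ext (h3 _ h1) (h3 _ h2)

theorem FRE : FRE_stmt := by
  intro V _ G P hP hI p hp d hd
  by_contra hne
  obtain ⟨k, hk⟩ := hP ⟨p, hp⟩
  have hk' : p ^ 2 ^ k = 1 := by
    have h := congrArg Subtype.val hk
    simpa using h
  obtain ⟨m, hm⟩ := (Nat.dvd_prime_pow Nat.prime_two).1 (orderOf_dvd_of_pow_eq_one hk')
  obtain ⟨-, hm⟩ := hm
  cases m with
  | zero =>
    rw [pow_zero, orderOf_eq_one_iff] at hm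
    exact hne hm
  | succ m =>
    have h1 : p ^ 2 ^ m ≠ 1 := by
      intro h2
      have h3 := orderOf_dvd_of_pow_eq_one h2
      rw [hm] at h3
      have h4 := Nat.le_of_dvd (by positivity) h3
      have h5 : 2 ^ m < 2 ^ (m + 1) := Nat.pow_lt_pow_right (by norm_num) (Nat.lt_succ_self m)
      omega
    have h2 : p ^ 2 ^ m * p ^ 2 ^ m = 1 := by
      rw [← pow_add, ← two_mul, ← pow_succ', ← hm]
      exact pow_orderOf_eq_one p
    refine hI (p ^ 2 ^ m) ⟨?_, ?_⟩ d (FRE_sd_pow p d hd _)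
    · intro v
      rw [← RelIso.mul_apply, h2]
      rfl
    · by_contra hc
      push Not at hc
      exact h1 (RelIso.ext hc)

end Pool.Agent.SYM
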